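import Pool.Agent.MP_8b309d_co.Final0
import Pool.Agent.MP_8b309d_co.CEasy
import Pool.Agent.MP_8b309d_co.C231_321
import Pool.Agent.MP_8b309d_co.C231
import Pool.Agent.MP_8b309d_co.P132b
import Pool.Agent.MP_8b309d_co.C1F
import Pool.Agent.MP_8b309d_co.S321D
import Pool.Agent.MP_8b309d_co.S123C

/-!
MP_8b309d_co: for every set of one or two patterns of length three, the numbers of
pattern-avoiding permutations by big descents form a log-concave sequence (full answer to Q1).
-/

namespace Pool.Agent.Results.MP_8b309d_co.OneTwoPatterns

open BD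

/-- For every set `P` of one or two patterns of length three, every `n` and every `k ≥ 1`:
`b P n (k-1) * b P n (k+1) ≤ b P n k ^ 2`, where `b P n k` is the number of permutations of
`Fin n` avoiding all patterns of `P` and having exactly `k` big descents. -/
theorem result (P : Finset (Equiv.Perm (Fin 3))) (hP : P.card = 1 ∨ P.card = 2) (n k : ℕ)
    (hk : 1 ≤ k) :
    b P n (k - 1) * b P n (k + 1) ≤ b P n k ^ 2 :=
  final_assembly LC_123 LC_321 LC_132 LC_231 C1.LC132_123 C1.LC132_213 LC231_123 LC123_321
    LC132_231 LC132_312 LC132_321 LC231_312 LC231_321 P hP n k hk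

end Pool.Agent.Results.MP_8b309d_co.OneTwoPatterns
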